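import Pool.Agent.Helper11.LE.Goals3
import Pool.Agent.Helper51.SigLeo.Core

/-!
# Packet LE-FCMU (MP_fc6b1e_nt): the trivial character and CM fields
-/

namespace Pool.Agent.Helper33.LE

open NumberField Module TensorProduct Pool.Agent.Helper51.SigLeo Pool.Agent.Helper11.LE

section conj

variable {F K : Type} [Field F] [NumberField F] [IsTotallyReal F] [Field K] [NumberField K]
    [IsTotallyComplex K] [Algebra F K]

/-- The nontrivial automorphism of a totally complex quadratic extension of a totally real field is the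
complex conjugation in every embedding. -/
theorem conj_eq (h : finrank F K = 2) (τ : K ≃ₐ[F] K) (hτ : τ ≠ 1) (φ : K →+* ℂ) (x : K) :
    φ (τ x) = (starRingEnd ℂ) (φ x) := by
  have : FiniteDimensional F K := FiniteDimensional.of_finrank_pos (by omega)
  have : Algebra.IsQuadraticExtension F K := ⟨h⟩
  have hcomp : φ.comp (algebraMap F K) = (ComplexEmbedding.conjugate φ).comp (algebraMap F K) := by
    have h1 : ComplexEmbedding.IsReal (φ.comp (algebraMap F K)) :=
      IsTotallyReal.complexEmbedding_isReal _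
    have h2 := ComplexEmbedding.isReal_iff.mp h1
    rw [← h2]
    ext y
    simp [ComplexEmbedding.conjugate_coe_eq]
  obtain ⟨σ, hσ⟩ := ComplexEmbedding.exists_comp_symm_eq_of_comp_eq (k := F) φ
    (ComplexEmbedding.conjugate φ) hcomp
  have hnr : ¬ ComplexEmbedding.IsReal φ := IsTotallyComplex.complexEmbedding_not_isReal φ
  have hs : σ.symm = τ := by
    rcases gal_two h τ hτ σ.symm with h1 | h1
    · exfalso
      apply hnr
      rw [ComplexEmbedding.isReal_iff, ← hσ]
      ext y
      rw [h1]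
      rfl
    · exact h1
  rw [hs] at hσ
  have := RingHom.congr_fun hσ x
  rw [← ComplexEmbedding.conjugate_coe_eq, ← this]
  rfl

/-- The quotient of a unit by its conjugate is a root of unity. -/
theorem torsion (h : finrank F K = 2) (τ : K ≃ₐ[F] K) (hτ : τ ≠ 1) (u : Additive (𝓞 K)ˣ) :
    ∃ n : ℕ, 0 < n ∧ n • (u - unitsHom τ u) = 0 := by
  have hint : IsIntegral ℤ (((u - unitsHom τ u).toMul : (𝓞 K)ˣ) : K) :=
    RingOfIntegers.isIntegral_coe _
  have hval : (((u - unitsHom τ u).toMul : (𝓞 K)ˣ) : K) * τ ((u.toMul : (𝓞 K)ˣ) : K) =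
      ((u.toMul : (𝓞 K)ˣ) : K) := by
    have h1 : ((u - unitsHom τ u).toMul : (𝓞 K)ˣ) * (unitsHom τ u).toMul = u.toMul := by
      rw [← toMul_add, sub_add_cancel]
    have h2 := congrArg (fun v : (𝓞 K)ˣ => algebraMap (𝓞 K) K (v : 𝓞 K)) h1
    simp only [Units.val_mul, map_mul] at h2
    rw [← unitsHom_apply]
    exact h2
  have hne : ((u.toMul : (𝓞 K)ˣ) : K) ≠ 0 := Units.coe_ne_zero _
  obtain ⟨n, hn, hpow⟩ := Embeddings.pow_eq_one_of_norm_eq_one K ℂ hint (fun φ => by
    have h1 := congrArg (fun y => ‖φ y‖) hval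
    simp only [map_mul, norm_mul] at h1
    rw [conj_eq h τ hτ φ, RCLike.norm_conj] at h1
    have h3 : ‖φ ((u.toMul : (𝓞 K)ˣ) : K)‖ ≠ 0 := by
      rw [norm_ne_zero_iff]
      exact (map_ne_zero φ).mpr hne
    exact (mul_eq_right₀ h3).mp h1)
  refine ⟨n, hn, ?_⟩
  apply Additive.toMul.injective
  apply Units.coe_injective
  change algebraMap (𝓞 K) K (((u - unitsHom τ u).toMul ^ n : (𝓞 K)ˣ) : 𝓞 K) =
    algebraMap (𝓞 K) K ((1 : (𝓞 K)ˣ) : 𝓞 K)
  rw [Units.val_pow_eq_pow_val, map_pow, hpow, Units.val_one, map_one]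

/-- The inclusion of the units of `F`. -/
noncomputable def incl (F K : Type) [Field F] [Field K] [Algebra F K] :
    Additive (𝓞 F)ˣ →+ Additive (𝓞 K)ˣ :=
  (Units.map (algebraMap (𝓞 F) (𝓞 K)).toMonoidHom).toAdditive

/-- The norm of the units of `K`. -/
noncomputable def nrm (F K : Type) [Field F] [Field K] [Algebra F K] :
    Additive (𝓞 K)ˣ →+ Additive (𝓞 F)ˣ :=
  (Units.map (RingOfIntegers.norm F)).toAdditive

theorem nrm_incl (h : finrank F K = 2) (w : Additive (𝓞 F)ˣ) : nrm F K (incl F K w) = 2 • w := by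
  apply Additive.toMul.injective
  apply Units.ext
  change RingOfIntegers.norm F (algebraMap (𝓞 F) (𝓞 K) ((w.toMul : (𝓞 F)ˣ) : 𝓞 F)) =
    ((w.toMul ^ 2 : (𝓞 F)ˣ) : 𝓞 F)
  rw [RingOfIntegers.norm_algebraMap, h, Units.val_pow_eq_pow_val]

theorem incl_nrm (h : finrank F K = 2) (τ : K ≃ₐ[F] K) (hτ : τ ≠ 1) (u : Additive (𝓞 K)ˣ) :
    incl F K (nrm F K u) = u + unitsHom τ u := by
  have : FiniteDimensional F K := FiniteDimensional.of_finrank_pos (by omega)
  have : Algebra.IsQuadraticExtension F K := ⟨h⟩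
  apply Additive.toMul.injective
  apply Units.ext
  apply RingOfIntegers.coe_injective
  change algebraMap F K (Algebra.norm F (algebraMap (𝓞 K) K ((u.toMul : (𝓞 K)ˣ) : 𝓞 K))) =
    algebraMap (𝓞 K) K (((u.toMul * (unitsHom τ u).toMul : (𝓞 K)ˣ)) : 𝓞 K)
  rw [Units.val_mul, map_mul, unitsHom_apply, Algebra.norm_eq_prod_automorphisms]
  classical
  have hu : (Finset.univ : Finset (K ≃ₐ[F] K)) = {1, τ} := by
    ext σ
    simp only [Finset.mem_univ, Finset.mem_insert, Finset.mem_singleton, true_iff]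
    exact gal_two h τ hτ σ
  rw [hu, Finset.prod_pair hτ.symm]
  rfl

end conj

section ext

variable {k M N : Type} [Field k] [CharZero k] [AddCommGroup M] [AddCommGroup N]

/-- Extension of scalars. -/
noncomputable def bc (k : Type) [Field k] {M N : Type} [AddCommGroup M] [AddCommGroup N]
    (f : M →+ N) : (k ⊗[ℤ] M) →ₗ[k] (k ⊗[ℤ] N) :=
  f.toIntLinearMap.baseChange k

theorem bc_tmul (f : M →+ N) (c : k) (m : M) : bc k f (c ⊗ₜ[ℤ] m) = c ⊗ₜ[ℤ] f m := by
  simp [bc]

theorem tmul_torsion (c : k) (m : M) (n : ℕ) (hn : 0 < n) (h : n • m = 0) :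
    c ⊗ₜ[ℤ] m = (0 : k ⊗[ℤ] M) := by
  have h1 : (n : k) • (c ⊗ₜ[ℤ] m : k ⊗[ℤ] M) = 0 := by
    rw [Nat.cast_smul_eq_nsmul, ← TensorProduct.tmul_smul, h, TensorProduct.tmul_zero]
  exact (smul_eq_zero.mp h1).resolve_left (by exact_mod_cast hn.ne')

end ext

theorem f_cmu : F_CMU := by
  intro p _ k _ _ L F K _ _ _ _ _ _ _ h T hT
  have : CharZero k := charZero_of_injective_algebraMap (algebraMap ℚ_[p] k).injective
  obtain ⟨τ, hτ⟩ := exists_gal (K := F) (H := K) h
  -- the composition of the inclusion and the norm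
  have hA : ∀ z : k ⊗[ℤ] Additive (𝓞 K)ˣ, bc k (incl F K) (bc k (nrm F K) z) = (2 : k) • z := by
    intro z
    induction z using TensorProduct.induction_on with
    | zero => simp
    | tmul c m =>
      rw [bc_tmul, bc_tmul, incl_nrm h τ hτ]
      obtain ⟨n, hn, htor⟩ := torsion h τ hτ m
      have h1 := tmul_torsion c (m - unitsHom τ m) n hn htor
      rw [TensorProduct.tmul_sub, sub_eq_zero] at h1
      rw [TensorProduct.tmul_add, ← h1, two_smul]
    | add x y hx hy => rw [map_add, map_add, hx, hy, smul_add]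
  have hB : ∀ w : k ⊗[ℤ] Additive (𝓞 F)ˣ, bc k (nrm F K) (bc k (incl F K) w) = (2 : k) • w := by
    intro w
    induction w using TensorProduct.induction_on with
    | zero => simp
    | tmul c m =>
      rw [bc_tmul, bc_tmul, nrm_incl h, two_nsmul, TensorProduct.tmul_add, two_smul]
    | add x y hx hy => rw [map_add, map_add, hx, hy, smul_add]
  have hC : ∀ (ρ : K →+* k) (w : k ⊗[ℤ] Additive (𝓞 F)ˣ),
      extHom (logUnits L ρ) (bc k (incl F K) w) =
        extHom (logUnits L (ρ.comp (algebraMap F K))) w := by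
    intro ρ w
    induction w using TensorProduct.induction_on with
    | zero => simp
    | tmul c m =>
      rw [bc_tmul, extHom_tmul, extHom_tmul]
      congr 1
    | add x y hx hy => rw [map_add, map_add, map_add, hx, hy]
  have h2 : (2 : k) ≠ 0 := two_ne_zero
  constructor
  · intro H
    rw [eq_bot_iff]
    intro w hw
    rw [Submodule.mem_bot]
    have hw' : ∀ σ : F →+* k, extHom (logUnits L σ) w = 0 := by
      intro σ
      have := (Submodule.mem_iInf _).mp hw σ
      exact this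
    have h3 : bc k (incl F K) w = 0 := H _ fun ρ _ => by rw [hC, hw']
    have h4 := hB w
    rw [h3, map_zero] at h4
    exact (smul_eq_zero.mp h4.symm).resolve_left h2
  · intro H z hz
    have h3 : bc k (nrm F K) z ∈ LKer L F := by
      rw [LKer, Submodule.mem_iInf]
      intro σ
      obtain ⟨ρ, hρ, hρσ⟩ := hT σ
      rw [LinearMap.mem_ker, ← hρσ, ← hC, hA, map_smul, hz ρ hρ, smul_zero]
    rw [H, Submodule.mem_bot] at h3
    have h4 := hA z
    rw [h3, map_zero] at h4
    exact (smul_eq_zero.mp h4.symm).resolve_left h2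

end Pool.Agent.Helper33.LE
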